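import Pool.Agent.Helper27.UC.Goals
import Pool.Agent.Helper36.Tate.MNR
import Pool.Agent.Helper44.Tate.TRK

/-!
PROJECT UC, packet GEN (helper93): a common general position.
-/

set_option autoImplicit false

noncomputable section

namespace Pool.Agent.Helper93.UC.GEN

open Polynomial Module Pool.Agent.Helper97.Tate Pool.Agent.Helper27.UC

theorem trk : S_TRK := Pool.Agent.Helper44.Tate.TRK.t Pool.Agent.Helper36.Tate.MNR.t

/-- a compatible enumeration of a multiset of pairs -/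
theorem enum {A : Type} (N : ℕ) : ∀ (f : Fin N → ℕ) (L : Multiset (A × ℕ)),
    L.map Prod.snd = (Finset.univ : Finset (Fin N)).val.map f →
    ∃ P : Fin N → A, L = (Finset.univ : Finset (Fin N)).val.map fun i => (P i, f i) := by
  classical
  induction N with
  | zero =>
    intro f L h
    rw [Fin.univ_val_map, List.ofFn_zero] at h
    refine ⟨fun i => i.elim0, ?_⟩
    rw [Fin.univ_val_map, List.ofFn_zero]
    exact Multiset.map_eq_zero.1 h
  | succ N ih =>
    intro f L h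
    rw [Fin.univ_val_map, List.ofFn_succ, ← Multiset.cons_coe, ← Fin.univ_val_map] at h
    obtain ⟨x, hx, hx1, hx2⟩ := (Multiset.map_eq_cons Prod.snd L _ _).2 h
    obtain ⟨P, hP⟩ := ih _ _ hx2
    refine ⟨Fin.cons x.1 P, ?_⟩
    rw [Fin.univ_val_map, List.ofFn_succ, ← Multiset.cons_coe, ← Fin.univ_val_map]
    rw [← Multiset.cons_erase hx, hP]
    simp only [Fin.cons_zero, Fin.cons_succ]
    rw [← hx1]

theorem spc_enum {K : Type} [Field K] (d N : ℕ) (P : Fin N → Fin 3 → K) (f : Fin N → ℕ) :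
    spc d ((Finset.univ : Finset (Fin N)).val.map fun i => (P i, f i)) =
      Fm K d ⊓ ⨅ i, Van (P i) (f i) := by
  unfold spc
  congr 1
  apply le_antisymm
  · refine le_iInf fun i => ?_
    exact iInf₂_le_of_le (P i, f i) (Multiset.mem_map.2 ⟨i, Finset.mem_univ_val i, rfl⟩) le_rfl
  · refine le_iInf₂ fun p hp => ?_
    obtain ⟨i, -, rfl⟩ := Multiset.mem_map.1 hp
    exact iInf_le _ i

theorem gd_mem (d : ℕ) (l : Multiset ℕ) :
    ∃ L : Multiset ((Fin 3 → ℂ) × ℕ), L.map Prod.snd = l ∧ finrank ℂ (spc d L) ≤ gd d l := by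
  have h : (gd d l) ∈ {N | ∃ L : Multiset ((Fin 3 → ℂ) × ℕ), L.map Prod.snd = l ∧
      finrank ℂ (spc d L) ≤ N} := by
    apply Nat.sInf_mem
    refine ⟨finrank ℂ (spc d (l.map fun a => ((0 : Fin 3 → ℂ), a))),
      l.map fun a => ((0 : Fin 3 → ℂ), a), ?_, le_rfl⟩
    rw [Multiset.map_map]
    simp
  exact h

theorem t (hBR : Helper27.UC.S_BR) : Helper27.UC.S_GEN := by
  classical
  intro d l T
  obtain ⟨m, hm⟩ : ∃ m : Fin l.card → ℕ, l = (Finset.univ : Finset (Fin l.card)).val.map m := by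
    refine ⟨fun i => l.toList.get (i.cast (by simp)), ?_⟩
    rw [Fin.univ_val_map]
    have h1 : (List.ofFn fun i : Fin l.card => l.toList.get (i.cast (by simp))) = l.toList := by
      apply List.ext_get
      · simp
      · intro k h1 h2
        simp
    rw [h1, Multiset.coe_toList]
  generalize l.card = n at m hm
  have hex : ∀ t : ℕ, ∃ G : MvPolynomial (Fin (n + 1) × Fin 3) ℂ, G ≠ 0 ∧
      ∀ Q : Fin (n + 1) → Fin 3 → ℂ,
        MvPolynomial.eval (fun ij : Fin (n + 1) × Fin 3 => Q ij.1 ij.2) G ≠ 0 →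
        finrank ℂ (Fm ℂ d ⊓ ⨅ i, Van (Q i) ((Fin.cons t m : Fin (n + 1) → ℕ) i) :
          Submodule ℂ (MvPolynomial (Fin 3) ℂ)) ≤ gd d (t ::ₘ l) := by
    intro t
    obtain ⟨L, hL1, hL2⟩ := gd_mem d (t ::ₘ l)
    have h1 : L.map Prod.snd =
        (Finset.univ : Finset (Fin (n + 1))).val.map (Fin.cons t m : Fin (n + 1) → ℕ) := by
      rw [hL1, Fin.univ_val_map, List.ofFn_succ, ← Multiset.cons_coe, ← Fin.univ_val_map, hm]
      simp only [Fin.cons_zero, Fin.cons_succ]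
    obtain ⟨P, hP⟩ := enum (n + 1) _ L h1
    rw [hP, spc_enum] at hL2
    exact trk ℂ (n + 1) d _ _ P hL2
  choose G hG0 hG using hex
  have hprod : (∏ t ∈ T, G t) * MvPolynomial.X ((0 : Fin (n + 1)), (2 : Fin 3)) ≠ 0 := by
    apply mul_ne_zero
    · exact Finset.prod_ne_zero_iff.2 fun t _ => hG0 t
    · exact MvPolynomial.X_ne_zero _
  obtain ⟨Q, hQ⟩ : ∃ Q : Fin (n + 1) × Fin 3 → ℂ, MvPolynomial.eval Q
      ((∏ t ∈ T, G t) * MvPolynomial.X ((0 : Fin (n + 1)), (2 : Fin 3))) ≠ 0 := by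
    by_contra hcon
    push Not at hcon
    exact hprod (MvPolynomial.funext fun x => by rw [hcon x, map_zero])
  rw [map_mul, MvPolynomial.eval_X, map_prod] at hQ
  have hc : Q (0, 2) ≠ 0 := right_ne_zero_of_mul hQ
  have hGt : ∀ t ∈ T, MvPolynomial.eval Q (G t) ≠ 0 :=
    Finset.prod_ne_zero_iff.1 (left_ne_zero_of_mul hQ)
  refine ⟨(Finset.univ : Finset (Fin n)).val.map fun i => ((fun k => Q (i.succ, k)), m i),
    Q (0, 0) / Q (0, 2), Q (0, 1) / Q (0, 2), ?_, ?_⟩
  · rw [Multiset.map_map, hm]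
    rfl
  · intro t ht
    rw [spc_enum]
    refine le_trans ?_ (hG t (fun i k => Q (i, k)) (hGt t ht))
    have hfd : FiniteDimensional ℂ (Fm ℂ d) := (hBR ℂ d).2.2.2.2
    have hfd2 : FiniteDimensional ℂ (Fm ℂ d ⊓ ⨅ i, Van ((fun (i : Fin (n + 1)) (k : Fin 3) =>
        Q (i, k)) i) ((Fin.cons t m : Fin (n + 1) → ℕ) i) :
        Submodule ℂ (MvPolynomial (Fin 3) ℂ)) :=
      Submodule.finiteDimensional_of_le inf_le_left
    apply Submodule.finrank_mono
    intro z hz
    obtain ⟨hz1, hz2⟩ := Submodule.mem_inf.1 hz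
    obtain ⟨hz3, hz4⟩ := Submodule.mem_inf.1 hz1
    refine Submodule.mem_inf.2 ⟨hz3, ?_⟩
    rw [Submodule.mem_iInf] at hz4 ⊢
    intro i
    refine Fin.cases ?_ (fun j => ?_) i
    · have h1 : (fun k : Fin 3 => Q ((0 : Fin (n + 1)), k)) =
          Q (0, 2) • ![Q (0, 0) / Q (0, 2), Q (0, 1) / Q (0, 2), 1] := by
        funext k
        fin_cases k
        · simp [mul_div_cancel₀ _ hc]
        · simp [mul_div_cancel₀ _ hc]
        · simp
      simp only [Fin.cons_zero]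
      rw [h1]
      exact ((hBR ℂ d).2.2.2.1 (Q (0, 2)) _ t z hc hz3).2 hz2
    · simp only [Fin.cons_succ]
      exact hz4 j

end Pool.Agent.Helper93.UC.GEN
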